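import Pool.Agent.V11201.GP.Csp

set_option autoImplicit false

/-!
# 2-to-1 games with perfect completeness: reductions of constant depth or of small sensitivity

Circuits (`Circuit`, `nodeVal`, `nodeDepth`) are defined in `Pool/Agent/H568R2/Defs.lean`: inputs
`Fin N`, NOT gates and AND and OR gates of unbounded fan-in.

An NP-hardness proof for `Gap_q(1, δ)` gives in particular a reduction from parity. We consider
reductions whose output, a 2-to-1 game, is given by presence bits: for every position `e` (a possible
edge: two vertices and a constraint map; all finite lists of positions are allowed, so also repeated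
edges) the bit `E x e` tells whether the game of the input `x` has this edge. If a game is written as
a list of edges in binary, the presence bits are conjunctions of bits of the output.

1. Sensitivity. In every reduction from the parity of `N` bits (of any complexity) some presence bit
   has sensitivity at least `c N` at some input at which its edge is present, `c = (1 - δ) / (1 + δ)`
   (in general `c = (1 - γ - δ) / (1 + |γ - δ|)` for values at least `1 - γ` and at most `δ`). So
   presence bits cannot be decision trees, or have certificates, of size less than `c N`.
2. Constant depth. A reduction from parity computed by circuits of depth `h` needs at least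
   `2 ^ ((c N) ^ (1 / (h + 1)) / 100)` gates. So neither `Gap_q(1, δ)`, `δ < 1`, nor its relaxations
   with imperfect completeness are hard for NP, or even for parity, under (nonuniform) `AC0`
   many-one reductions, whatever `q` is. (Without a gap, for suitable `q`, the problem is hard under
   such reductions.)

Idea of the proof. A yes instance and a no instance have at most a fraction `(1 - c) / 2` of the sum
of their numbers of edges in common. Hence, for every variable, the flip of this variable destroys on
average a fraction `c` of the edges; count the triples of an input, a variable and an edge which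
disappears. For (2) this is applied after a random restriction, under which all presence bits become
decision trees of small depth.
-/

namespace Pool.Agent.Results.MP_ec946a_lc.ConstantDepthReductions

open Finset DomAC0
open scoped Classical

/-- A family of positions of edges for 2-to-1 games with the vertex sets `U` and `V` and the labels
`Fin q`: an edge at the position `e` joins `left e` and `right e`, and its constraint is `map e`,
whose fibres have at most two elements. -/
structure Positions (U V : Type) (q : ℕ) (P : Type) where
  left : P → U
  right : P → V
  map : P → Fin q → Fin q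
  fibre : ∀ e b, (univ.filter fun a => map e a = b).card ≤ 2

/-- the number of edges with the property `E` -/
noncomputable def count {P : Type} [Fintype P] (E : P → Prop) : ℕ := (univ.filter fun e => E e).card

/-- the labelling `A`, `B` satisfies the constraint at the position `e` -/
def Satisfies {U V : Type} {q : ℕ} {P : Type} (L : Positions U V q P) (A : U → Fin q)
    (B : V → Fin q) (e : P) : Prop := L.map e (A (L.left e)) = B (L.right e)

/-- The game with the edges at the positions `e` with `E e` has value at least `t`. -/
def ValueAtLeast {U V : Type} {q : ℕ} {P : Type} [Fintype P] (L : Positions U V q P)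
    (E : P → Prop) (t : ℝ) : Prop :=
  ∃ A B, t * (count E : ℝ) ≤ (count fun e => E e ∧ Satisfies L A B e : ℕ)

/-- The game with the edges at the positions `e` with `E e` has value at most `t`. -/
def ValueAtMost {U V : Type} {q : ℕ} {P : Type} [Fintype P] (L : Positions U V q P)
    (E : P → Prop) (t : ℝ) : Prop :=
  ∀ A B, ((count fun e => E e ∧ Satisfies L A B e : ℕ) : ℝ) ≤ t * count E

/-- The games `E x`, `x ∈ {0,1}^N`, all of which have an edge, are a reduction from parity: the
value is at least `1 - γ` if `x` has an even number of ones, and at most `δ` otherwise. -/
structure FromParity {U V : Type} {q : ℕ} {P : Type} [Fintype P] (L : Positions U V q P) {N : ℕ}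
    (E : (Fin N → Bool) → P → Prop) (γ δ : ℝ) : Prop where
  nonempty : ∀ x, ∃ e, E x e
  even : ∀ x, Even (univ.filter fun i => x i = true).card → ValueAtLeast L (E x) (1 - γ)
  odd : ∀ x, Odd (univ.filter fun i => x i = true).card → ValueAtMost L (E x) δ

/-- Let `γ + δ ≤ 1` and `c = (1 - γ - δ) / (1 + |γ - δ|)`.

1. Let `x ↦ E x` be a reduction from the parity of `N` bits to 2-to-1 games, with value at least
`1 - γ` for even and at most `δ` for odd inputs. If for every edge `e` of every `E x` there are
at most `s` variables whose flip makes this edge disappear, then `c N ≤ s`.

2. For every `h` there is `X₀` such that, if such a reduction is computed by a circuit `C` (the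
presence of the edge `e` by the node `out e`, of depth at most `h`) and `c N ≥ X₀`, then `C` has at
least `2 ^ ((c N) ^ (1 / (h + 1)) / 100)` gates. -/
theorem result :
    (∀ (N s q : ℕ) (U V P : Type) [Fintype P] (L : Positions U V q P)
      (E : (Fin N → Bool) → P → Prop) (γ δ : ℝ), γ + δ ≤ 1 → FromParity L E γ δ →
      (∀ e x, E x e → (univ.filter fun i => ¬ E (Function.update x i (!(x i))) e).card ≤ s) →
      (1 - γ - δ) / (1 + |γ - δ|) * N ≤ s) ∧
    ∀ h : ℕ, ∃ X₀ : ℝ, ∀ (N q : ℕ) (C : Circuit (Fin N)) (U V P : Type) [Fintype P]
      (L : Positions U V q P) (out : P → Fin N ⊕ Fin C.size) (γ δ : ℝ), γ + δ ≤ 1 →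
      (∀ e, C.nodeDepth (out e) ≤ h) →
      FromParity L (fun x e => C.nodeVal x (out e) = true) γ δ →
      X₀ ≤ (1 - γ - δ) / (1 + |γ - δ|) * N →
      (2 : ℝ) ^ (((1 - γ - δ) / (1 + |γ - δ|) * N) ^ (1 / (h + 1 : ℝ)) / 100) ≤ C.size := by
  refine ⟨?_, ?_⟩
  · intro N s q U V P _ L E γ δ _ hE hs
    refine Pool.Agent.V11201.GP.csp_sens (α := (U → Fin q) × (V → Fin q))
      (S := fun a e => Satisfies L a.1 a.2 e) hE.nonempty ?_ ?_ hs
    · intro x hx
      obtain ⟨A, B, h⟩ := hE.even x hx
      exact ⟨(A, B), h⟩
    · intro x hx a
      exact hE.odd x hx a.1 a.2
  · intro h
    obtain ⟨X₀, hX₀⟩ := Pool.Agent.V11201.GP.csp_ac0 h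
    refine ⟨X₀, ?_⟩
    intro N q C U V P _ L out γ δ hγδ hh hE hX
    refine hX₀ C (α := (U → Fin q) × (V → Fin q)) out
      (fun a e => Satisfies L a.1 a.2 e) γ δ hh hγδ hE.nonempty ?_ ?_ hX
    · intro x hx
      obtain ⟨A, B, h⟩ := hE.even x hx
      exact ⟨(A, B), h⟩
    · intro x hx a
      exact hE.odd x hx a.1 a.2

end Pool.Agent.Results.MP_ec946a_lc.ConstantDepthReductions
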