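import Pool.Agent.V11201.PT.Neg

set_option autoImplicit false

/-!
# 2-to-1 games: reductions by circuits with few NOT gates

An NP-hardness proof for the gap problem gives in particular a reduction from parity. We consider
reductions whose output, a 2-to-1 game, is given by the list of its edges: for every `j < M` the
`j`-th edge is a function of the input `x ∈ {0,1}^N`. The length `M` of the lists, the size of the
circuits and the alphabet are arbitrary.

Result: If each edge of the list is determined by `k` bits which are computed by a circuit of AND and OR gates
   (or any other monotone gates) with `t` NOT gates, then `(k + 1) 2 ^ t ≥ c N + 1`,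
`c = 1 - γ - δ` for values at least `1 - γ` and at most `δ`. So if the edges of the lists are described by
`k` bits each (`k = O(log N)` for lists of polynomial length and a fixed alphabet), some of the circuits
for single edges have at least `log₂ (c N) - log₂ (k + 1)` NOT gates. This is optimal up to the
lower order term: circuits of polynomial size can always be changed into circuits of polynomial size
with `⌈log₂ (N + 1)⌉` NOT gates (Markov, Fischer).

Idea of the proof. The lists of two neighbouring inputs differ in at least `c M` of their `M` entries,
since a labelling for the yes instance satisfies at least `(1 - γ) M` constraints of its list and at most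
`δ M` of the other one. Apply this to the `N` steps of a maximal chain of the cube. By Markov's argument
the outputs of a circuit with `t` NOT gates and `k` outputs change at most `(k + 1) 2 ^ t - 1` times
along a chain.
-/

namespace Pool.Agent.Results.MP_ec946a_lc.FewNegations

open Finset
open scoped Classical

/-- An edge of a 2-to-1 game with the vertex sets `U` and `V` and the labels `Fin q`: it joins `left` and
`right`, and its constraint is `map`, whose fibres have at most two elements. -/
structure Edge (U V : Type) (q : ℕ) where
  left : U
  right : V
  map : Fin q → Fin q
  fibre : ∀ b, (univ.filter fun a => map a = b).card ≤ 2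

/-- the labelling `A`, `B` satisfies the constraint of the edge `e` -/
def Satisfies {U V : Type} {q : ℕ} (A : U → Fin q) (B : V → Fin q) (e : Edge U V q) : Prop :=
  e.map (A e.left) = B e.right

/-- The games `E x`, `x ∈ {0,1}^N`, each given by a list of `M` edges (repeated edges count with
multiplicity), are a reduction from parity: the value is at least `1 - γ` if `x` has an even number of
ones, and at most `δ` otherwise. -/
structure FromParity {U V : Type} {q N M : ℕ} (E : (Fin N → Bool) → Fin M → Edge U V q) (γ δ : ℝ) :
    Prop where
  even : ∀ x, Even (univ.filter fun i => x i = true).card →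
    ∃ A B, (1 - γ) * M ≤ (univ.filter fun j => Satisfies A B (E x j)).card
  odd : ∀ x, Odd (univ.filter fun i => x i = true).card →
    ∀ A B, ((univ.filter fun j => Satisfies A B (E x j)).card : ℝ) ≤ δ * M

/-- the function `e` is determined by the bits `g 1, …, g k` -/
def DeterminedBy {N k : ℕ} {β : Type} (e : (Fin N → Bool) → β) (g : Fin k → (Fin N → Bool) → Bool) : Prop :=
  ∀ x y, (∀ l, g l x = g l y) → e x = e y

/-- The bits `g 1, …, g k` are computed by a circuit with `t` NOT gates: the input of the `i`-th NOT
gate is a monotone function `m i` of the variables and of the values `neg j`, `j < i`, of the preceding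
NOT gates, and the bits are monotone functions `o l` of the variables and of the values of all NOT
gates. (`m i` and `o l` are what the AND and OR gates, or any other monotone gates, compute; their
number is not bounded.) -/
def FewNegations {N : ℕ} (t k : ℕ) (g : Fin k → (Fin N → Bool) → Bool) : Prop :=
  ∃ (neg : Fin t → (Fin N → Bool) → Bool) (m : Fin t → (Fin N → Bool) → (Fin t → Bool) → Bool)
    (o : Fin k → (Fin N → Bool) → (Fin t → Bool) → Bool),
    (∀ i x y u v, x ≤ y → u ≤ v → m i x u ≤ m i y v) ∧
    (∀ l x y u v, x ≤ y → u ≤ v → o l x u ≤ o l y v) ∧
    (∀ i x, neg i x = !(m i x fun j => if j < i then neg j x else false)) ∧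
    ∀ l x, g l x = o l x fun j => neg j x

/-- Let `x ↦ E x` be a reduction from the parity of `N` bits to 2-to-1 games whose output is a list of `M`
edges, with value at least `1 - γ` for even and at most `δ` for odd inputs. If every edge of the list is
determined by `k` bits which are computed by a circuit with `t` NOT gates (one circuit for every edge),
then `(1 - γ - δ) N + 1 ≤ (k + 1) 2 ^ t`. -/
theorem result : ∀ (q : ℕ) (U V : Type) (N M : ℕ) (E : (Fin N → Bool) → Fin M → Edge U V q) (γ δ : ℝ),
    1 ≤ M → FromParity E γ δ →
    ∀ (k t : ℕ) (g : Fin M → Fin k → (Fin N → Bool) → Bool), (∀ j, DeterminedBy (fun x => E x j) (g j)) →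
      (∀ j, FewNegations t k (g j)) → (1 - γ - δ) * N + 1 ≤ (k + 1) * 2 ^ t := by
  intro q U V N M E γ δ hM hE k t g hg h
  have hyes : ∀ x, Even (univ.filter fun i => x i = true).card →
      ∃ a : (U → Fin q) × (V → Fin q), (1 - γ) * M ≤ (univ.filter fun j => Satisfies a.1 a.2 (E x j)).card := by
    intro x hx
    obtain ⟨A, B, h⟩ := hE.even x hx
    exact ⟨(A, B), h⟩
  exact Pool.Agent.V11201.PT.list_neg (S := fun (a : (U → Fin q) × (V → Fin q)) e => Satisfies a.1 a.2 e)
    hM hyes (fun x hx a => hE.odd x hx a.1 a.2) hg h

end Pool.Agent.Results.MP_ec946a_lc.FewNegations
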