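import Pool.Agent.V11201.GP.Csp

set_option autoImplicit false

/-!
# 2-to-1 games with perfect completeness and unate reductions

An NP-hardness proof for `Gap_q(1, δ)` gives in particular a reduction from parity. We consider
reductions whose output, a 2-to-1 game, is given by presence bits: for every position `e` (a possible
edge: two vertices and a constraint map; all finite lists of positions are allowed, so also repeated
edges) the bit `E x e` tells whether the game of the input `x` has this edge.

A bit is unate if in each variable it is nondecreasing or nonincreasing (different variables may
have different directions, and the directions may be different for different bits); nothing is assumed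
about its complexity. Monotone functions, threshold functions with arbitrary real weights, and
conjunctions of literals are unate; a disjunctive normal form with `k` terms is a disjunction of `k`
unate bits.

Result: if all presence bits are disjunctions of `k` unate bits, a reduction from the parity of `N`
bits needs at least `exp (c² N / (2 k²)) / k` positions, `c = (1 - δ) / (1 + δ)` (in general
`c = (1 - γ - δ) / (1 + |γ - δ|)` for values at least `1 - γ` and at most `δ`). So reductions of
polynomial size to the gap problem, for whatever alphabet and completeness, must have presence
bits which are not disjunctions of fewer than `c' √(N / log N)` unate bits of any complexity.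

The condition on the bits cannot be weakened much: conjunctions of two unate bits are enough for
`N + 1` positions (the bit of the position `w` tells whether exactly `w` variables are one).

Idea of the proof. A yes instance and a no instance have at most a fraction `(1 - c) / 2` of the sum
of their numbers of edges in common, so the flip of one variable destroys on average a fraction `c` of
the edges. The number of sensitive variables of a unate bit, summed over the inputs at which it is
one, is the sum of a linear form with coefficients `± 1` in the `± 1` variables over these inputs; and
such linear forms are large only at exponentially few inputs.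
-/

namespace Pool.Agent.Results.MP_ec946a_lc.UnateReductions

open Finset
open scoped Classical

/-- A family of positions of edges for 2-to-1 games with the vertex sets `U` and `V` and the labels
`Fin q`: an edge at the position `e` joins `left e` and `right e`, and its constraint is `map e`,
whose fibres have at most two elements. -/
structure Positions (U V : Type) (q : ℕ) (P : Type) where
  left : P → U
  right : P → V
  map : P → Fin q → Fin q
  fibre : ∀ e b, (univ.filter fun a => map e a = b).card ≤ 2

/-- the number of edges with the property `E` -/
noncomputable def count {P : Type} [Fintype P] (E : P → Prop) : ℕ := (univ.filter fun e => E e).card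

/-- the labelling `A`, `B` satisfies the constraint at the position `e` -/
def Satisfies {U V : Type} {q : ℕ} {P : Type} (L : Positions U V q P) (A : U → Fin q)
    (B : V → Fin q) (e : P) : Prop := L.map e (A (L.left e)) = B (L.right e)

/-- The game with the edges at the positions `e` with `E e` has value at least `t`. -/
def ValueAtLeast {U V : Type} {q : ℕ} {P : Type} [Fintype P] (L : Positions U V q P)
    (E : P → Prop) (t : ℝ) : Prop :=
  ∃ A B, t * (count E : ℝ) ≤ (count fun e => E e ∧ Satisfies L A B e : ℕ)

/-- The game with the edges at the positions `e` with `E e` has value at most `t`. -/
def ValueAtMost {U V : Type} {q : ℕ} {P : Type} [Fintype P] (L : Positions U V q P)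
    (E : P → Prop) (t : ℝ) : Prop :=
  ∀ A B, ((count fun e => E e ∧ Satisfies L A B e : ℕ) : ℝ) ≤ t * count E

/-- The games `E x`, `x ∈ {0,1}^N`, all of which have an edge, are a reduction from parity: the
value is at least `1 - γ` if `x` has an even number of ones, and at most `δ` otherwise. -/
structure FromParity {U V : Type} {q : ℕ} {P : Type} [Fintype P] (L : Positions U V q P) {N : ℕ}
    (E : (Fin N → Bool) → P → Prop) (γ δ : ℝ) : Prop where
  nonempty : ∀ x, ∃ e, E x e
  even : ∀ x, Even (univ.filter fun i => x i = true).card → ValueAtLeast L (E x) (1 - γ)
  odd : ∀ x, Odd (univ.filter fun i => x i = true).card → ValueAtMost L (E x) δ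

/-- Each of the bits `F x q` is, in each of the variables, nondecreasing or nonincreasing. -/
def Unate {N : ℕ} {Q : Type} (F : (Fin N → Bool) → Q → Prop) : Prop :=
  ∀ q i, (∀ x, F (Function.update x i false) q → F (Function.update x i true) q) ∨
    (∀ x, F (Function.update x i true) q → F (Function.update x i false) q)

/-- Let `γ + δ ≤ 1` and `c = (1 - γ - δ) / (1 + |γ - δ|)`, and let `x ↦ E x` be a reduction from the
parity of `N` bits to 2-to-1 games (with any alphabet) with value at least `1 - γ`
for even and at most `δ` for odd inputs. If every presence bit `E x e` is the disjunction of `k` unate
bits `F x (e, j)`, then `exp (c² N / (2 k²)) ≤ k |P|`, where `|P|` is the number of positions. -/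
theorem result {N k q : ℕ} {U V P : Type} [Fintype P] (L : Positions U V q P)
    (E : (Fin N → Bool) → P → Prop) (F : (Fin N → Bool) → P × Fin k → Prop) (hF : Unate F)
    (hEF : ∀ x e, E x e ↔ ∃ j, F x (e, j)) (γ δ : ℝ) (hγδ : γ + δ ≤ 1)
    (hE : FromParity L E γ δ) :
    Real.exp (((1 - γ - δ) / (1 + |γ - δ|)) ^ 2 * N / (2 * k ^ 2)) ≤ k * Fintype.card P := by
  refine Pool.Agent.V11201.GP.csp_unate (α := (U → Fin q) × (V → Fin q)) (A := E) (U := F)
    (S := fun a e => Satisfies L a.1 a.2 e) hF hEF hγδ hE.nonempty ?_ ?_
  · intro x hx
    obtain ⟨A, B, h⟩ := hE.even x hx
    exact ⟨(A, B), h⟩
  · intro x hx a
    exact hE.odd x hx a.1 a.2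

end Pool.Agent.Results.MP_ec946a_lc.UnateReductions
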